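import Pool.Agent.L7h58.NF.Ind

/-!
# Project NF: part CONE
-/

set_option autoImplicit false

open Set Filter Topology Metric Function
open scoped Manifold ContDiff

noncomputable section

namespace Pool.Agent.L7h58.NF

open Pool.Agent.Y522 Pool.Agent.L7h20.NF

section

variable {m : ℕ} {X : Type} [TopologicalSpace X] [ChartedSpace (E (m + 1)) X]

theorem dF_add {V W : X → E (m + 1)} (hV : Sm V) (hW : Sm W) {A : E (m + 1) → X}
    (L : E (m + 1) ≃L[ℝ] E (m + 1)) {z : E (m + 1)} (hA : LD (m + 1) A z) :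
    dF (fun y => V y + W y) A L z = dF V A L z + dF W A L z := by
  refine HasFDerivAt.fderiv ?_
  refine ((hasFDerivAt_dF hV L hA).add (hasFDerivAt_dF hW L hA)).congr_of_eventuallyEq
    (Eventually.of_forall fun w => ?_)
  exact L.map_add _ _

theorem dF_smul {V : X → E (m + 1)} (hV : Sm V) (C : ℝ) {A : E (m + 1) → X}
    (L : E (m + 1) ≃L[ℝ] E (m + 1)) {z : E (m + 1)} (hA : LD (m + 1) A z) :
    dF (fun y => C • V y) A L z = C • dF V A L z := by
  refine HasFDerivAt.fderiv ?_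
  refine ((hasFDerivAt_dF hV L hA).const_smul C).congr_of_eventuallyEq
    (Eventually.of_forall fun w => ?_)
  exact L.map_smul _ _

theorem tau_add {F V W : X → E (m + 1)} (hV : Sm V) (hW : Sm W) {A : E (m + 1) → X}
    (L : E (m + 1) ≃L[ℝ] E (m + 1)) {z : E (m + 1)} (hA : LD (m + 1) A z) :
    tau F (fun y => V y + W y) A L z = tau F V A L z + tau F W A L z := by
  unfold tau dd
  rw [dF_add hV hW L hA, map_add]

theorem tau_smul {F V : X → E (m + 1)} (hV : Sm V) (C : ℝ) {A : E (m + 1) → X}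
    (L : E (m + 1) ≃L[ℝ] E (m + 1)) {z : E (m + 1)} (hA : LD (m + 1) A z) :
    tau F (fun y => C • V y) A L z = C * tau F V A L z := by
  unfold tau dd
  rw [dF_smul hV C L hA, map_smul, smul_eq_mul]

omit [TopologicalSpace X] [ChartedSpace (E (m + 1)) X] in
theorem tau_zero {F : X → E (m + 1)} {A : E (m + 1) → X}
    (L : E (m + 1) ≃L[ℝ] E (m + 1)) {z : E (m + 1)} :
    tau F (fun _ => 0) A L z = 0 := by
  have h : dF (fun _ : X => (0 : E (m + 1))) A L z = 0 := by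
    unfold dF
    have : (fun _ : E (m + 1) => L (0 : E (m + 1))) = fun _ => 0 := by
      funext w
      exact L.map_zero
    rw [this]
    exact fderiv_const_apply 0
  unfold tau dd
  rw [h, map_zero]

theorem sm_add {V W : X → E (m + 1)} (hV : Sm V) (hW : Sm W) : Sm (fun y => V y + W y) :=
  ContMDiff.add hV hW

theorem sm_smul {V : X → E (m + 1)} (hV : Sm V) (C : ℝ) : Sm (fun y => C • V y) := by
  have h : ContMDiff (𝓡 (m + 1)) (𝓡 (m + 1)) ∞ (fun y => (C • ContinuousLinearMap.id ℝ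
      (E (m + 1)) : E (m + 1) →L[ℝ] E (m + 1)) (V y)) :=
    ((C • ContinuousLinearMap.id ℝ (E (m + 1))).contDiff.contMDiff).comp hV
  exact h

theorem sm_lin {F : X → E (m + 1)} (hF : Sm F) (s : E (m + 1) →L[ℝ] ℝ) (n : E (m + 1)) :
    Sm (fun y => s (F y) • n) := by
  have h1 : ContMDiff (𝓡 (m + 1)) 𝓘(ℝ, ℝ) ∞ (fun y => s (F y)) :=
    (s.contDiff.contMDiff).comp hF
  exact ContMDiff.smul h1 contMDiff_const

theorem tau_continuousAt (hd : ContDiff ℝ ∞ (fun T : E (m + 1) →L[ℝ] E (m + 1) => T.det))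
    {F V : X → E (m + 1)} (hF : Sm F) (hV : Sm V) {A : E (m + 1) → X}
    (L : E (m + 1) ≃L[ℝ] E (m + 1)) {z : E (m + 1)} (hA : LD (m + 1) A z) :
    ContinuousAt (tau F V A L) z := by
  have h1 : Continuous (fderiv ℝ (fun T : E (m + 1) →L[ℝ] E (m + 1) => T.det)) :=
    hd.continuous_fderiv (by simp)
  have h2 : ContinuousAt (fun w => fderiv ℝ (fun T : E (m + 1) →L[ℝ] E (m + 1) => T.det)
      (dF F A L w)) z := ContinuousAt.comp
        (g := fderiv ℝ (fun T : E (m + 1) →L[ℝ] E (m + 1) => T.det))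
        h1.continuousAt (dF_continuousAt hF L hA)
  exact h2.clm_apply (dF_continuousAt hV L hA)

theorem Co.ev {F : X → E (m + 1)} {A : E (m + 1) → X} {L : E (m + 1) ≃L[ℝ] E (m + 1)}
    {z : E (m + 1)} (h : Co F A L z) : ∀ᶠ w in 𝓝 z, Co F A L w := by
  filter_upwards [h.ld.eventually, h.nn.eventually_nhds] with w h1 h2
  exact ⟨h1, h2⟩

end

theorem s_CONE (h : S_DET1) (_h2 : S_REG) (h3 : S_IND) : S_CONE := by
  intro m X _ _ _ F hF
  obtain ⟨hcd, -, hdd, -⟩ := h m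
  have key : ∀ (A : E (m + 1) → X) (L : E (m + 1) ≃L[ℝ] E (m + 1)) (z : E (m + 1))
      (V : X → E (m + 1)), Sm V → Co F A L z →
      (NN F V (A z) ↔ 0 ≤ tau F V A L z) ∧ (Pos F V (A z) ↔ 0 < tau F V A L z) := by
    intro A L z V hV hC
    refine ⟨⟨?_, fun h => ⟨A, L, z, rfl, hC, h⟩⟩, ⟨?_, fun h => ⟨A, L, z, rfl, hC, h⟩⟩⟩
    · rintro ⟨A', L', z', hz, hC', ht⟩
      obtain ⟨c, hc, hc'⟩ := h3 m X F hF A' L' z' A L z hz hC' hC
      rw [hc' V hV]
      positivity
    · rintro ⟨A', L', z', hz, hC', ht⟩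
      obtain ⟨c, hc, hc'⟩ := h3 m X F hF A' L' z' A L z hz hC' hC
      rw [hc' V hV]
      positivity
  refine ⟨?_, ?_, ?_, ?_, ?_, ?_, ?_, key, ?_⟩
  · rintro V W x hV hW ⟨A, L, z, rfl, hC, ht⟩ h2
    rw [(key A L z W hW hC).1] at h2
    rw [(key A L z _ (sm_add hV hW) hC).1, tau_add hV hW L hC.ld]
    positivity
  · rintro V W x hV hW ⟨A, L, z, rfl, hC, ht⟩ h2
    rw [(key A L z W hW hC).1] at h2
    rw [(key A L z _ (sm_add hV hW) hC).2, tau_add hV hW L hC.ld]
    positivity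
  · rintro V x C hV hCn ⟨A, L, z, rfl, hC, ht⟩
    rw [(key A L z _ (sm_smul hV C) hC).1, tau_smul hV C L hC.ld]
    positivity
  · rintro V x C hV hCn ⟨A, L, z, rfl, hC, ht⟩
    rw [(key A L z _ (sm_smul hV C) hC).2, tau_smul hV C L hC.ld]
    positivity
  · intro V hV
    rw [isOpen_iff_mem_nhds]
    rintro x ⟨A, L, z, rfl, hC, ht⟩
    have h1 : ∀ᶠ w in 𝓝 z, 0 < tau F V A L w :=
      (tau_continuousAt hcd hF.smooth hV L hC.ld).eventually (lt_mem_nhds ht)
    have h2 : A '' {w | Co F A L w ∧ 0 < tau F V A L w} ∈ 𝓝 (A z) :=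
      hC.ld.image_mem_nhds ((Co.ev hC).and h1)
    refine mem_of_superset h2 ?_
    rintro _ ⟨w, ⟨hw1, hw2⟩, rfl⟩
    exact ⟨A, L, w, rfl, hw1, hw2⟩
  · rintro V x ⟨A, L, z, hz, hC, ht⟩
    exact ⟨A, L, z, hz, hC, ht.le⟩
  · intro x
    obtain ⟨A, L, z, hz, hC⟩ := hF.sign x
    exact ⟨A, L, z, hz, hC, (tau_zero L).ge⟩
  · intro s n hs x
    obtain ⟨A, L, z, rfl, hC⟩ := hF.sign x
    have hV : Sm (fun y => s (F y) • n) := sm_lin hF.smooth s n
    have h1 : dF (fun y => s (F y) • n) A L z =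
        (((s.comp (L.symm : E (m + 1) →L[ℝ] E (m + 1))).comp (dF F A L z))).smulRight (L n) := by
      refine HasFDerivAt.fderiv ?_
      have h2 := hasFDerivAt_dF hF.smooth L hC.ld
      have h3 := (s.comp (L.symm : E (m + 1) →L[ℝ] E (m + 1))).hasFDerivAt
        (x := L (F (A z))) |>.comp z h2
      have h4 := h3.smul_const (L n)
      refine h4.congr_of_eventuallyEq (Eventually.of_forall fun w => ?_)
      change L (s (F (A w)) • n) = s (L.symm (L (F (A w)))) • L n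
      rw [L.symm_apply_apply, map_smul]
    have h2 : tau F (fun y => s (F y) • n) A L z = jac F A L z := by
      unfold tau jac
      rw [h1, hdd]
      change s (L.symm (L n)) * _ = _
      rw [L.symm_apply_apply, hs, one_mul]
    refine ⟨⟨A, L, z, rfl, hC, ?_⟩, fun hld => ⟨A, L, z, rfl, hC, ?_⟩⟩
    · rw [h2]
      exact hC.nn.self_of_nhds
    · rw [h2]
      exact lt_of_le_of_ne hC.nn.self_of_nhds (Ne.symm ((ld_iff hF.smooth L hC.ld).1 hld))

end Pool.Agent.L7h58.NF
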