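import Pool.Agent.L7h58.NF.Reg

/-!
# Project NF: part IND
-/

set_option autoImplicit false

open Set Filter Topology Metric Function
open scoped Manifold ContDiff

noncomputable section

namespace Pool.Agent.L7h58.NF

open Pool.Agent.Y522 Pool.Agent.L7h20.NF

section

variable {m : ℕ} {X : Type} [TopologicalSpace X] [ChartedSpace (E (m + 1)) X]
    [IsManifold (𝓡 (m + 1)) ∞ X]

omit [IsManifold (𝓡 (m + 1)) ∞ X] in
/-- change of coordinates for the derivative -/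
theorem dF_change {V : X → E (m + 1)} (hV : Sm V) {A A' : E (m + 1) → X}
    (L L' : E (m + 1) ≃L[ℝ] E (m + 1)) {ψ : E (m + 1) → E (m + 1)} {w : E (m + 1)}
    (hψ : LD (m + 1) ψ w) (hA : LD (m + 1) A (ψ w)) (h : ∀ᶠ y in 𝓝 w, A (ψ y) = A' y) :
    dF V A' L' w = (((L.symm.trans L' : E (m + 1) ≃L[ℝ] E (m + 1)) :
      E (m + 1) →L[ℝ] E (m + 1))).comp ((dF V A L (ψ w)).comp (fderiv ℝ ψ w)) := by
  have h1 : HasFDerivAt ψ (fderiv ℝ ψ w) w :=
    (hψ.contDiffAt.differentiableAt (by simp)).hasFDerivAt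
  have h2 : HasFDerivAt (fun w => L (V (A w))) (dF V A L (ψ w)) (ψ w) := hasFDerivAt_dF hV L hA
  have h3 := h2.comp w h1
  have h4 := ((L.symm.trans L' : E (m + 1) ≃L[ℝ] E (m + 1))).hasFDerivAt
    (x := L (V (A (ψ w)))) |>.comp w h3
  refine HasFDerivAt.fderiv (h4.congr_of_eventuallyEq ?_)
  filter_upwards [h] with y hy
  change L' (V (A' y)) = L' (L.symm (L (V (A (ψ y)))))
  rw [L.symm_apply_apply, hy]

omit [IsManifold (𝓡 (m + 1)) ∞ X] in
/-- regular points in every neighbourhood, in coordinates -/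
theorem exists_regular {F : X → E (m + 1)} (hF : Setting F) {A : E (m + 1) → X} {z : E (m + 1)}
    (hA : LD (m + 1) A z) {p : E (m + 1) → Prop} (hp : ∀ᶠ w in 𝓝 z, p w) :
    ∃ w, p w ∧ LD (m + 1) F (A w) := by
  have h1 : A '' {w | p w} ∈ 𝓝 (A z) := hA.image_mem_nhds hp
  obtain ⟨x, hx1, hx2⟩ := hF.dense.inter_nhds_nonempty h1
  obtain ⟨w, hw1, hw2⟩ := hx2
  refine ⟨w, hw1, ?_⟩
  rw [hw2]
  exact hx1

end

theorem s_IND (h : S_DET1) (_h2 : S_REG) : S_IND := by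
  intro m X _ _ _ F hF A L z A' L' z' hz hC hC'
  obtain ⟨hcd, hdd, -, -⟩ := h m
  obtain ⟨p, hp1, hp2, hp3, hp4⟩ := hC.ld.exists_inverse
  set ψ : E (m + 1) → E (m + 1) := fun w => p (A' w) with hψdef
  have hψz : ψ z' = z := by
    rw [hψdef]
    simp only
    rw [← hz]
    exact hp2
  have hψ : LD (m + 1) ψ z' := by
    refine LD.comp_fun (g := p) (f := A') (x := z') ?_ hC'.ld
    rw [← hz]
    exact hp1
  have hAz : LD (m + 1) A (ψ z') := by
    rw [hψz]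
    exact hC.ld
  have hAψ : ∀ᶠ y in 𝓝 z', A (ψ y) = A' y := by
    have h1 : ∀ᶠ x in 𝓝 (A' z'), A (p x) = x := by
      rw [← hz]
      exact hp4
    exact hC'.ld.continuousAt.eventually h1
  have hψc : ContinuousAt ψ z' := hψ.continuousAt
  have hAev : ∀ᶠ y in 𝓝 z', LD (m + 1) A (ψ y) := hψc.eventually hAz.eventually
  set Λ : E (m + 1) →L[ℝ] E (m + 1) := ((L.symm.trans L' : E (m + 1) ≃L[ℝ] E (m + 1)) :
    E (m + 1) →L[ℝ] E (m + 1)) with hΛ
  -- the factor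
  set c : E (m + 1) → ℝ := fun w => Λ.det * (fderiv ℝ ψ w).det with hc
  have hcont : ContinuousAt c z' := by
    have h1 : ContinuousAt (fderiv ℝ ψ) z' :=
      (hψ.contDiffAt.fderiv_right (m := 0) (by simp)).continuousAt
    have h2 : ContinuousAt (fun w => (fderiv ℝ ψ w).det) z' :=
      ContinuousAt.comp (g := fun T : E (m + 1) →L[ℝ] E (m + 1) => T.det)
        hcd.continuous.continuousAt h1
    exact continuousAt_const.mul h2
  have hne : c z' ≠ 0 := by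
    rw [hc]
    simp only
    refine mul_ne_zero ?_ ?_
    · exact (LinearEquiv.isUnit_det' ((L.symm.trans L' :
        E (m + 1) ≃L[ℝ] E (m + 1))).toLinearEquiv).ne_zero
    · obtain ⟨B, hB⟩ := hψ.exists_equiv
      rw [hB.fderiv]
      exact (LinearEquiv.isUnit_det' B.toLinearEquiv).ne_zero
  have hkey : ∀ V : X → E (m + 1), Sm V → ∀ w, LD (m + 1) ψ w → LD (m + 1) A (ψ w) →
      (∀ᶠ y in 𝓝 w, A (ψ y) = A' y) →
      dF V A' L' w = Λ.comp ((dF V A L (ψ w)).comp (fderiv ℝ ψ w)) := by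
    intro V hV w h1 h2 h3
    exact dF_change hV L L' h1 h2 h3
  have hjac : ∀ w, LD (m + 1) ψ w → LD (m + 1) A (ψ w) → (∀ᶠ y in 𝓝 w, A (ψ y) = A' y) →
      jac F A' L' w = c w * jac F A L (ψ w) := by
    intro w h1 h2 h3
    unfold jac
    rw [hkey F hF.smooth w h1 h2 h3, hc]
    simp only
    have e1 : ∀ S T : E (m + 1) →L[ℝ] E (m + 1), (S.comp T).det = S.det * T.det := by
      intro S T
      change LinearMap.det ((S.comp T : E (m + 1) →L[ℝ] E (m + 1)) :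
        E (m + 1) →ₗ[ℝ] E (m + 1)) = _
      rw [ContinuousLinearMap.toLinearMap_comp, LinearMap.det_comp]
    rw [e1, e1]
    ring
  have hpos : 0 < c z' := by
    by_contra hn
    have hlt : c z' < 0 := lt_of_le_of_ne (not_lt.1 hn) hne
    have hev : ∀ᶠ w in 𝓝 z', c w < 0 := hcont.eventually (gt_mem_nhds hlt)
    have hall : ∀ᶠ w in 𝓝 z', (c w < 0 ∧ LD (m + 1) ψ w ∧ LD (m + 1) A (ψ w) ∧
        (∀ᶠ y in 𝓝 w, A (ψ y) = A' y)) ∧ (0 ≤ jac F A L (ψ w) ∧ 0 ≤ jac F A' L' w ∧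
        LD (m + 1) A' w) := by
      have hnn : ∀ᶠ w in 𝓝 z', 0 ≤ jac F A L (ψ w) := by
        have h1 : ∀ᶠ y in 𝓝 (ψ z'), 0 ≤ jac F A L y := by
          rw [hψz]
          exact hC.nn
        exact hψc.eventually h1
      filter_upwards [hev, hψ.eventually, hAev, hAψ.eventually_nhds, hnn, hC'.nn,
        hC'.ld.eventually] with w h1 h2 h3 h4 h5 h6 h7
      exact ⟨⟨h1, h2, h3, h4⟩, h5, h6, h7⟩
    obtain ⟨w, ⟨⟨h1, h2, h3, h4⟩, h5, h6, h7⟩, h8⟩ := exists_regular hF hC'.ld hall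
    have h9 : jac F A' L' w ≠ 0 := (ld_iff hF.smooth L' h7).1 h8
    have h10 := hjac w h2 h3 h4
    have h11 : 0 < jac F A' L' w := lt_of_le_of_ne h6 (Ne.symm h9)
    rw [h10] at h11
    nlinarith [mul_nonneg (neg_nonneg.2 h1.le) h5]
  refine ⟨c z', hpos, ?_⟩
  intro V hV
  unfold tau
  rw [hkey F hF.smooth z' hψ hAz hAψ, hkey V hV z' hψ hAz hAψ, hdd, hψz]

end Pool.Agent.L7h58.NF
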