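import Pool.Agent.L7h20.NF.Stm
import Pool.Agent.Y522.Tools

/-!
# Project NF: part REG
-/

set_option autoImplicit false

open Set Filter Topology Metric Function
open scoped Manifold ContDiff

noncomputable section

namespace Pool.Agent.L7h58.NF

open Pool.Agent.Y522 Pool.Agent.L7h20.NF

section

variable {m : ℕ} {X : Type} [TopologicalSpace X] [ChartedSpace (E (m + 1)) X]
    [IsManifold (𝓡 (m + 1)) ∞ X]

omit [IsManifold (𝓡 (m + 1)) ∞ X] in
/-- in coordinates a smooth map is smooth -/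
theorem smooth_coord {F : X → E (m + 1)} (hF : Sm F) {A : E (m + 1) → X} {z : E (m + 1)}
    (hA : LD (m + 1) A z) : ContDiffAt ℝ ∞ (fun w => F (A w)) z := by
  have h1 : ContMDiffAt (𝓡 (m + 1)) (𝓡 (m + 1)) ∞ (F ∘ A) z :=
    ContMDiffAt.comp z (hF (A z)) hA.contMDiffAt
  exact contMDiffAt_iff_contDiffAt.1 h1

omit [IsManifold (𝓡 (m + 1)) ∞ X] in
theorem ev_smooth {F : X → E (m + 1)} (hF : Sm F) {A : E (m + 1) → X} {z : E (m + 1)}
    (hA : LD (m + 1) A z) : ∀ᶠ w in 𝓝 z, ContDiffAt ℝ ∞ (fun w => F (A w)) w := by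
  filter_upwards [hA.eventually] with w hw
  exact smooth_coord hF hw

omit [IsManifold (𝓡 (m + 1)) ∞ X] in
theorem smooth_L {F : X → E (m + 1)} (hF : Sm F) {A : E (m + 1) → X}
    (L : E (m + 1) ≃L[ℝ] E (m + 1)) {z : E (m + 1)}
    (hA : LD (m + 1) A z) : ContDiffAt ℝ ∞ (fun w => L (F (A w))) z :=
  L.contDiff.contDiffAt.comp z (smooth_coord hF hA)

omit [IsManifold (𝓡 (m + 1)) ∞ X] in
theorem dF_continuousAt {F : X → E (m + 1)} (hF : Sm F) {A : E (m + 1) → X}
    (L : E (m + 1) ≃L[ℝ] E (m + 1)) {z : E (m + 1)}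
    (hA : LD (m + 1) A z) : ContinuousAt (dF F A L) z :=
  ((smooth_L hF L hA).fderiv_right (m := 0) (by simp)).continuousAt

omit [IsManifold (𝓡 (m + 1)) ∞ X] in
theorem hasFDerivAt_dF {F : X → E (m + 1)} (hF : Sm F) {A : E (m + 1) → X}
    (L : E (m + 1) ≃L[ℝ] E (m + 1)) {z : E (m + 1)}
    (hA : LD (m + 1) A z) : HasFDerivAt (fun w => L (F (A w))) (dF F A L z) z :=
  ((smooth_L hF L hA).differentiableAt (by simp)).hasFDerivAt

omit [IsManifold (𝓡 (m + 1)) ∞ X] in
theorem ld_iff {F : X → E (m + 1)} (hF : Sm F) {A : E (m + 1) → X}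
    (L : E (m + 1) ≃L[ℝ] E (m + 1)) {z : E (m + 1)}
    (hA : LD (m + 1) A z) : LD (m + 1) F (A z) ↔ jac F A L z ≠ 0 := by
  constructor
  · intro h
    have h1 : LD (m + 1) (fun w => F (A w)) z := h.comp_fun hA
    have h2 : LD (m + 1) (fun w => L (F (A w))) z :=
      LD.comp_fun (g := fun y => L y) (LD_linear L _) h1
    obtain ⟨B, hB⟩ := h2.exists_equiv
    have h3 : dF F A L z = (B : E (m + 1) →L[ℝ] E (m + 1)) := hB.fderiv
    unfold jac
    rw [h3]
    exact (LinearEquiv.isUnit_det' B.toLinearEquiv).ne_zero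
  · intro h
    have h0 : (LinearMap.det ((dF F A L z : E (m + 1) →L[ℝ] E (m + 1)) :
        E (m + 1) →ₗ[ℝ] E (m + 1))) ≠ 0 := h
    let B : E (m + 1) ≃L[ℝ] E (m + 1) :=
      ContinuousLinearMap.toContinuousLinearEquivOfDetNeZero (dF F A L z) h
    have hB : ((B : E (m + 1) ≃L[ℝ] E (m + 1)) : E (m + 1) →L[ℝ] E (m + 1)) = dF F A L z := by
      ext v : 1
      rfl
    have h1 : LD (m + 1) (fun w => L (F (A w))) z := by
      refine LD_of_contDiffAt ?_ B ?_
      · filter_upwards [hA.eventually] with w hw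
        exact smooth_L hF L hw
      · rw [hB]
        exact hasFDerivAt_dF hF L hA
    have h2 : LD (m + 1) (fun w => F (A w)) z := by
      have := LD.comp_fun (g := fun y => L.symm y) (f := fun w => L (F (A w))) (x := z)
        (LD_linear L.symm _) h1
      refine this.congr (Eventually.of_forall fun w => ?_)
      exact (L.symm_apply_apply _).symm
    obtain ⟨p, hp1, hp2, hp3, hp4⟩ := hA.exists_inverse
    have h3 : LD (m + 1) (fun x => F (A (p x))) (A z) := by
      refine LD.comp_fun (g := fun w => F (A w)) (f := p) (x := A z) ?_ hp1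
      rw [hp2]
      exact h2
    refine h3.congr ?_
    filter_upwards [hp4] with x hx
    rw [hx]

end

theorem s_REG : S_REG := by
  intro m X _ _ _ F A L z hF hA
  exact ⟨ld_iff hF L hA, ev_smooth hF hA, dF_continuousAt hF L hA⟩

end Pool.Agent.L7h58.NF
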